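import Pool.Agent.W646.CI.Stm

/-!
Project CI (helper646): the final statement `C_∞ = -2` from the two estimates.
-/

set_option autoImplicit false

open Filter Topology Metric

namespace Pool.Agent.W63.CI

open Pool.Agent.W646.CI MinMod

theorem minMod_le (f : ℂ → ℂ) {r : ℝ} {z : ℂ} (hz : ‖z‖ = r) : minMod f r ≤ ‖f z‖ := by
  have hb : BddBelow (Set.range fun z : Metric.sphere (0:ℂ) r => ‖f z‖) := by
    refine ⟨0, ?_⟩
    rintro _ ⟨w, rfl⟩
    exact norm_nonneg _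
  exact ciInf_le hb ⟨z, mem_sphere_zero_iff_norm.2 hz⟩

theorem min_att (f : ℂ → ℂ) (hf : Continuous f) {r : ℝ} (hr : 0 ≤ r) :
    ∃ z : ℂ, ‖z‖ = r ∧ ‖f z‖ ≤ minMod f r := by
  have hne : (Metric.sphere (0:ℂ) r).Nonempty := NormedSpace.sphere_nonempty.2 hr
  obtain ⟨z, hz, hmin⟩ := (isCompact_sphere (0:ℂ) r).exists_isMinOn hne hf.norm.continuousOn
  refine ⟨z, mem_sphere_zero_iff_norm.1 hz, ?_⟩
  have : Nonempty (Metric.sphere (0:ℂ) r) := ⟨⟨z, hz⟩⟩
  exact le_ciInf fun w => hmin w.2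

theorem bF_le {f : ℂ → ℂ} {r x : ℝ} (h : minMod f r ≤ Real.exp x) : bF f r ≤ (x : EReal) := by
  unfold bF
  rw [ENNReal.log_ofReal]
  split_ifs with h0
  · exact bot_le
  · rw [EReal.coe_le_coe_iff]
    exact (Real.log_le_iff_le_exp (not_le.1 h0)).2 h

theorem lt_of_bF {f : ℂ → ℂ} {r x : ℝ} (h : bF f r < (x : EReal)) :
    minMod f r < Real.exp x := by
  by_contra hc
  have hc' := not_lt.1 hc
  have h0 : 0 < minMod f r := lt_of_lt_of_le (Real.exp_pos x) hc'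
  unfold bF at h
  rw [ENNReal.log_ofReal_of_pos h0, EReal.coe_lt_coe_iff] at h
  have h1 := (Real.le_log_iff_exp_le h0).2 hc'
  linarith

theorem den_pos {a : ℝ} (ha : Real.exp 1 < a) : 0 < a * Real.log (Real.log a) := by
  have h0 : 0 < a := (Real.exp_pos 1).trans ha
  have h1 : 1 < Real.log a := (Real.lt_log_iff_exp_lt h0).2 ha
  exact mul_pos h0 (Real.log_pos h1)

theorem upper (hU : S_FINU) (ε : ℝ) (hε : 0 < ε) (hε1 : ε < 1) :
    CInf ≤ ((-(2 - ε) : ℝ) : EReal) := by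
  obtain ⟨f, hd, ho, hev⟩ := hU ε hε hε1
  have h1 : CInf ≤ LamInf f := sInf_le ⟨f, hd, ho, rfl⟩
  refine h1.trans ?_
  unfold LamInf
  refine limsup_le_of_le (by isBoundedDefault) ?_
  filter_upwards [hev] with r hr
  obtain ⟨ha, z, hz, hfz⟩ := hr
  have hp := den_pos ha
  rw [EReal.div_le_iff_le_mul (by exact_mod_cast hp) (EReal.coe_ne_top _)]
  have h2 := bF_le ((minMod_le f hz).trans hfz)
  refine h2.trans (le_of_eq ?_)
  rw [← EReal.coe_mul]
  congr 1
  ring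

theorem lower (hL : S_LOWF) (f : ℂ → ℂ) (hd : Differentiable ℂ f) (ho : order f = ⊤) (ε : ℝ)
    (hε : 0 < ε) : ((-(2 + ε) : ℝ) : EReal) ≤ LamInf f := by
  by_contra hcon
  have hcon' := not_le.1 hcon
  obtain ⟨hT, hN⟩ := hL f hd ho ε hε
  apply hN
  have h1 : ∀ᶠ r : ℝ in atTop, MinMod.bF f r /
      ((MinMod.aF f r * Real.log (Real.log (MinMod.aF f r)) : ℝ) : EReal) <
      ((-(2 + ε) : ℝ) : EReal) := eventually_lt_of_limsup_lt hcon'
  filter_upwards [h1, hT.eventually_gt_atTop (Real.exp 1), eventually_ge_atTop (0:ℝ)]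
    with r hr ha hr0
  have hp := den_pos ha
  rw [EReal.div_lt_iff (by exact_mod_cast hp) (EReal.coe_ne_top _), ← EReal.coe_mul] at hr
  have h2 := lt_of_bF hr
  obtain ⟨z, hz, hfz⟩ := min_att f hd.continuous hr0
  refine ⟨z, hz, hfz.trans (h2.le.trans (le_of_eq ?_))⟩
  congr 1
  ring

theorem fin (hL : S_LOWF) (hU : S_FINU) : S_FIN := by
  have e2 : (-2 : EReal) = ((-2 : ℝ) : EReal) := by
    rw [EReal.coe_neg]
    rfl
  unfold S_FIN
  rw [e2]
  apply le_antisymm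
  · by_contra hcon
    obtain ⟨t, ht1, ht2⟩ := EReal.lt_iff_exists_real_btwn.1 (not_le.1 hcon)
    rw [EReal.coe_lt_coe_iff] at ht1
    have hε : 0 < min (1 / 2) (t + 2) := lt_min (by norm_num) (by linarith)
    have h := upper hU _ hε (lt_of_le_of_lt (min_le_left _ _) (by norm_num))
    have h2 : ((-(2 - min (1 / 2) (t + 2)) : ℝ) : EReal) ≤ (t : EReal) := by
      rw [EReal.coe_le_coe_iff]
      linarith [min_le_right (1 / 2) (t + 2)]
    exact absurd (lt_of_lt_of_le ht2 (h.trans h2)) (lt_irrefl _)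
  · refine le_sInf ?_
    rintro L ⟨f, hd, ho, rfl⟩
    by_contra hcon
    obtain ⟨t, ht1, ht2⟩ := EReal.lt_iff_exists_real_btwn.1 (not_le.1 hcon)
    rw [EReal.coe_lt_coe_iff] at ht2
    have h := lower hL f hd ho (-2 - t) (by linarith)
    have h2 : ((-(2 + (-2 - t)) : ℝ) : EReal) = (t : EReal) := by
      rw [EReal.coe_eq_coe_iff]
      ring
    rw [h2] at h
    exact absurd (lt_of_le_of_lt h ht1) (lt_irrefl _)

end Pool.Agent.W63.CI
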